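import Mathlib
import Pool.Agent.H42R3.Main

/-!
Irregular indices in Galois orbits of characters. Let `p` be a prime and `p - 1 = m d` with `m` even
and `d` odd. The even indices `n = 1 + d j`, `(j, m) = 1`, are those for which the `(n - 1)`-st power
of the Teichmüller character has order `m`. At most `φ(m) (1/2 + o(1))` of these `φ(m)` indices are
irregular (`p` divides the numerator of the Bernoulli number `B_n`), and if `d > 1` at least one of
them is not.
-/

set_option autoImplicit false

open Finset

namespace Pool.Agent.Results.MP_a3a416_nt.GaloisOrbits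

theorem result (p : ℕ) (hp : p.Prime) (m d : ℕ) (hm : Even m) (hd : Odd d) (hmd : m * d = p - 1) :
    (1 < d → #{j ∈ range m | j.Coprime m ∧ (p : ℤ) ∣ (bernoulli (1 + d * j)).num} <
      Nat.totient m) ∧
    (#{j ∈ range m | j.Coprime m ∧ 1 + d * j ≤ p - 3 ∧ (p : ℤ) ∣ (bernoulli (1 + d * j)).num} : ℝ) ≤
      Nat.totient m * (1 / 2 + Real.log ((1 + Real.log p) / 2) / Real.log p) +
        (if d = 1 then 1 else 0) := by
  have : Fact p.Prime := ⟨hp⟩
  have hp1 := hp.one_lt
  have h3 : 3 ≤ p := by
    by_contra hcon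
    have h2 : p = 2 := by omega
    rw [h2] at hmd
    obtain ⟨h, hh⟩ := hm
    have : m ∣ 1 := ⟨d, hmd.symm⟩
    have := Nat.dvd_one.1 this
    omega
  constructor
  · intro hd1
    have h1 := (Pool.Agent.H42R3.main_lt (p := p) hm hmd hd hd1).1
    have h2 : {j ∈ range m | j.Coprime m ∧ (p : ℤ) ∣ (bernoulli (1 + d * j)).num} =
        Pool.Agent.H42R3.JJ p m d := by
      unfold Pool.Agent.H42R3.JJ
      apply Finset.filter_congr
      intro j hj
      rw [Finset.mem_range] at hj
      have hdj : d * j + d ≤ p - 1 := by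
        rw [← hmd]
        nlinarith
      have hd3 : 3 ≤ d := by
        obtain ⟨e, he⟩ := hd
        omega
      constructor
      · rintro ⟨h, h'⟩
        exact ⟨h, by omega, h'⟩
      · rintro ⟨h, -, h'⟩
        exact ⟨h, h'⟩
    rw [h2]
    exact h1
  · have h2 : {j ∈ range m | j.Coprime m ∧ 1 + d * j ≤ p - 3 ∧ (p : ℤ) ∣ (bernoulli (1 + d * j)).num} =
        Pool.Agent.H42R3.JJ p m d := by
      unfold Pool.Agent.H42R3.JJ
      apply Finset.filter_congr
      intro j hj
      constructor
      · rintro ⟨h, h', h''⟩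
        exact ⟨h, by omega, h''⟩
      · rintro ⟨h, h', h''⟩
        exact ⟨h, by omega, h''⟩
    rw [h2]
    have h1 := Pool.Agent.H42R3.main (p := p) hm hmd hd
    have hp1' : (1 : ℝ) < p := by exact_mod_cast hp1
    have hp0 : (0 : ℝ) < p := by linarith
    have hs : 0 < √(p : ℝ) := Real.sqrt_pos.2 hp0
    have hlog : 0 < Real.log p := Real.log_pos hp1'
    have hif : (0 : ℝ) < if d = 1 then (p : ℝ) else 1 := by split_ifs <;> linarith
    have h4 := Real.log_le_log (by positivity) h1
    rw [Real.log_mul hif.ne' (by positivity), Real.log_pow, Real.log_pow,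
      Real.log_mul hs.ne' (by positivity), Real.log_sqrt hp0.le] at h4
    have h5 : Real.log (if d = 1 then (p : ℝ) else 1) = (if d = 1 then 1 else 0) * Real.log p := by
      split_ifs <;> simp
    rw [h5] at h4
    rw [← mul_le_mul_iff_left₀ hlog]
    refine h4.trans (le_of_eq ?_)
    field_simp
    ring

end Pool.Agent.Results.MP_a3a416_nt.GaloisOrbits
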