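import Mathlib
import Pool.Agent.H332R2.Window

namespace Pool.Agent.Results.MP_a3a416_nt.IrregularRuns

/-- For every prime `p`: if `1 ≤ r`, `2a ≤ (r+1)(2r+1)` and `2(a+r) ≤ p-3`, then at least one of the
`r` consecutive Bernoulli numbers `B_{2(a+1)}, …, B_{2(a+r)}` has numerator prime to `p`. -/
theorem result (p : ℕ) (hp : p.Prime) (a r : ℕ) (hr : 1 ≤ r)
    (ha : 2 * a ≤ (r + 1) * (2 * r + 1)) (hpr : 2 * (a + r) + 3 ≤ p) :
    ∃ m : ℕ, a < m ∧ m ≤ a + r ∧ ¬ ((p : ℤ) ∣ (bernoulli (2 * m)).num) := by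
  have : Fact p.Prime := ⟨hp⟩
  rcases Nat.eq_zero_or_pos a with h0 | h0
  · refine ⟨1, by omega, by omega, ?_⟩
    have h2 : bernoulli (2 * 1) = 6⁻¹ := bernoulli_two
    rw [h2]
    have h3 : ((6 : ℚ)⁻¹).num = 1 := by norm_num
    rw [h3]
    intro h
    have := Int.le_of_dvd (by norm_num) h
    have := hp.two_le
    omega
  · by_contra hcon
    push Not at hcon
    refine Pool.Agent.H332R2.no_window (p := p) (2 * a) r (r + 1) (by omega) (by omega) (by nlinarith)
      (by omega) (by omega) ?_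
    intro k hk1 hk2
    rcases Nat.even_or_odd' k with ⟨m, hm | hm⟩
    · subst hm
      rw [Pool.Agent.H332R2.cc_eq_zero_iff (by omega) (by omega)]
      exact hcon m (by omega) (by omega)
    · have hb : bernoulli k = 0 := bernoulli_eq_zero_of_odd ⟨m, hm⟩ (by omega)
      unfold Pool.Agent.H332R2.cc
      rw [hb]
      simp

end Pool.Agent.Results.MP_a3a416_nt.IrregularRuns
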