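import Mathlib
import Pool.Agent.H582R5.RP.A1
import Pool.Agent.H582R5.RP.A2
import Pool.Agent.H582R5.RP.C
import Pool.Agent.H582R5.RP.Main

namespace Pool.Agent.Results.MP_a3a416_nt.ResidueClasses

/-- Let `d ≥ 1` and let `p > d^φ(2d)` be prime. For every residue class `c` modulo `d` and every
`a ≥ 1` with `2^d (2a+1) < p` there is `m ≡ c (mod d)` with `a < m < 2^(d-1) (2a+1)` such that `p`
does not divide the numerator of the Bernoulli number `B_{2m}`. -/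
theorem result (p d : ℕ) (hp : p.Prime) (hd : 1 ≤ d) (hpd : d ^ Nat.totient (2 * d) < p)
    (c : ℤ) (a : ℕ) (ha : 1 ≤ a) (hN : 2 ^ d * (2 * a + 1) < p) :
    ∃ m : ℕ, (m : ℤ) ≡ c [ZMOD d] ∧ a < m ∧ 2 * m < 2 ^ d * (2 * a + 1) ∧
      ¬ ((p : ℤ) ∣ (bernoulli (2 * m)).num) :=
  Pool.Agent.H582R5.RP.main_of Pool.Agent.H582R5.RP.a1 Pool.Agent.H582R5.RP.a2
    Pool.Agent.H582R5.RP.c p d hp hd hpd a ha hN c

end Pool.Agent.Results.MP_a3a416_nt.ResidueClasses
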