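import Mathlib
import Pool.Agent.H332R2.IrrMain

open Filter Topology

namespace Pool.Agent.Results.MP_a3a416_nt.SparseIrregular

/-- `irregularCount p K` is the number of `m` with `1 ≤ m ≤ K` such that the prime `p` divides the
numerator (in lowest terms) of the Bernoulli number `B_{2m}`. -/
noncomputable def irregularCount (p K : ℕ) : ℕ :=
  ((Finset.Icc 1 K).filter (fun m => (p : ℤ) ∣ (bernoulli (2 * m)).num)).card

/-- For every `η > 0` and every `ψ` tending to infinity, almost all primes `p` (in the sense of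
relative density in the primes) satisfy, simultaneously for all `K`,
`#{1 ≤ m ≤ K : p ∣ num B_{2m}} ≤ ψ(p) (K² log p / p)^{1+η}`. -/
theorem result
    (η : ℝ) (hη : 0 < η) (ψ : ℕ → ℝ) (hψ : Tendsto ψ atTop atTop) :
    Tendsto (fun X : ℕ =>
        (({p : ℕ | p ≤ X ∧ p.Prime ∧ ∀ K : ℕ,
            (irregularCount p K : ℝ) ≤ ψ p * ((K : ℝ) ^ 2 * Real.log p / p) ^ (1 + η)}.ncard : ℕ) : ℝ)
          / (({p : ℕ | p ≤ X ∧ p.Prime}.ncard : ℕ) : ℝ))
      atTop (𝓝 1) := by
  classical
  have hcount : ∀ X : ℕ, {p : ℕ | p ≤ X ∧ p.Prime}.ncard =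
      ((Finset.range (X + 1)).filter Nat.Prime).card := by
    intro X
    rw [← Set.ncard_coe_finset]
    congr 1
    ext p
    simp
  have hgood : ∀ X : ℕ, {p : ℕ | p ≤ X ∧ p.Prime ∧ ∀ K : ℕ,
            (irregularCount p K : ℝ) ≤ ψ p * ((K : ℝ) ^ 2 * Real.log p / p) ^ (1 + η)}.ncard =
      ((Finset.range (X + 1)).filter
        (fun p => p.Prime ∧ Pool.Agent.H332R2.good η ψ p)).card := by
    intro X
    rw [← Set.ncard_coe_finset]
    congr 1
    ext p
    simp only [Set.mem_ofPred_eq, Finset.coe_filter, Finset.mem_range, Nat.lt_succ_iff]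
    exact Iff.rfl
  have hpart : ∀ X : ℕ, ((Finset.range (X + 1)).filter
        (fun p => p.Prime ∧ Pool.Agent.H332R2.good η ψ p)).card +
      ((Finset.range (X + 1)).filter
        (fun p => p.Prime ∧ ¬ Pool.Agent.H332R2.good η ψ p)).card =
      ((Finset.range (X + 1)).filter Nat.Prime).card := by
    intro X
    have := Finset.card_filter_add_card_filter_not (s := (Finset.range (X + 1)).filter Nat.Prime)
      (fun p => Pool.Agent.H332R2.good η ψ p)
    rw [Finset.filter_filter, Finset.filter_filter] at this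
    exact this
  rw [Metric.tendsto_atTop']
  intro ε hε
  have hfew := Pool.Agent.H332R2.few_bad η hη ψ hψ (ε / 2) (by positivity)
    (fun X => (Finset.range (X + 1)).filter
        (fun p => p.Prime ∧ ¬ Pool.Agent.H332R2.good η ψ p)) (fun X p hp => by
      rw [Finset.mem_filter, Finset.mem_range] at hp
      exact ⟨hp.2.1, by omega, hp.2.2⟩)
  obtain ⟨X0, hX0⟩ := hfew.exists_forall_of_atTop
  refine ⟨max X0 2, fun X hX => ?_⟩
  have hX1 : X0 ≤ X := le_of_lt (lt_of_le_of_lt (le_max_left _ _) hX)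
  have hX2 : 2 ≤ X := le_of_lt (lt_of_le_of_lt (le_max_right _ _) hX)
  have h1 := hX0 X hX1
  rw [hgood, hcount]
  have h2 := hpart X
  set G := ((Finset.range (X + 1)).filter
        (fun p => p.Prime ∧ Pool.Agent.H332R2.good η ψ p)).card with hG
  set Bd := ((Finset.range (X + 1)).filter
        (fun p => p.Prime ∧ ¬ Pool.Agent.H332R2.good η ψ p)).card with hBd
  set P := ((Finset.range (X + 1)).filter Nat.Prime).card with hP
  have hPpos : 0 < P := by
    rw [hP, Finset.card_pos]
    exact ⟨2, by rw [Finset.mem_filter, Finset.mem_range]; exact ⟨by omega, Nat.prime_two⟩⟩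
  have hPr : (0 : ℝ) < P := by exact_mod_cast hPpos
  have h3 : (G : ℝ) + Bd = P := by exact_mod_cast h2
  rw [Real.dist_eq]
  have h4 : (G : ℝ) / P - 1 = - (Bd / P) := by
    field_simp; linarith
  rw [h4, abs_neg, abs_of_nonneg (by positivity), div_lt_iff₀ hPr]
  nlinarith

end Pool.Agent.Results.MP_a3a416_nt.SparseIrregular
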